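import Mathlib
import Pool.Agent.H510R2.Maier.MB10

/-!
# Blocks of `κ log p` consecutive gaps against Cramér's bound `(log p)²`

Let `p_m` be the primes and `B κ m = p_(m + 1 + ⌊κ log p_m⌋) - p_m` the sum of `⌊κ log p_m⌋ + 1` consecutive
differences, starting at `p_m`. Since the average difference is `log p`, the average size of `B κ m` is
`κ (log p_m)²`. We show

* `B κ m > c (log p_m)²` for every `c < 2 e^(-γ) κ = 1.12… κ`, and the blocks with this property are frequent: their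
  first differences have total length at least `x^(1 - η)` up to `x`;
* `B κ m < c (log p_m)²` for every `c > κ / 1.07`, for at least `x^(1 - η)` indices `m` with `p_m ≤ x`.

(`Pool.Agent.H510R2.Maier`: Maier's matrix method for windows of length `λ (log n)²`, with frequencies.)
-/

open Finset Filter Topology
open scoped Classical

namespace Pool.Agent.Results.MP_69be96_nt.BlocksOfGaps

open Pool.Agent.H510R2.Maier

/-- the primes, `P 0 = 2` -/
noncomputable def P (m : ℕ) : ℕ := Nat.nth Nat.Prime m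

/-- sum of `⌊κ log p_m⌋ + 1` consecutive differences of primes, starting at `p_m` -/
noncomputable def B (κ : ℝ) (m : ℕ) : ℝ := (P (m + 1 + ⌊κ * Real.log (P m)⌋₊) : ℝ) - P m

/-- index of the largest prime `≤ n` -/
noncomputable def φ (n : ℕ) : ℕ := Nat.count Nat.Prime (n + 1) - 1

theorem count_pos (n : ℕ) (hn : 2 ≤ n) : 0 < Nat.count Nat.Prime (n + 1) := by
  rw [Nat.pos_iff_ne_zero]
  intro h0
  rw [Nat.count_eq_zero ⟨2, Nat.prime_two⟩, Nat.nth_prime_zero_eq_two] at h0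
  omega

theorem φ_le (n : ℕ) (hn : 2 ≤ n) : P (φ n) ≤ n := by
  have h := count_pos n hn
  have : Nat.nth Nat.Prime (Nat.count Nat.Prime (n + 1) - 1) < n + 1 := Nat.nth_lt_of_lt_count (by omega)
  unfold P φ
  omega

theorem lt_φ (n : ℕ) (hn : 2 ≤ n) : n < P (φ n + 1) := by
  have h := count_pos n hn
  have h2 : n + 1 ≤ Nat.nth Nat.Prime (Nat.count Nat.Prime (n + 1)) :=
    (Nat.count_le_iff_le_nth Nat.infinite_setOfPred_prime).1 (le_refl (Nat.count Nat.Prime (n + 1)))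
  unfold P φ
  rw [Nat.sub_add_cancel h]
  omega

theorem φ_two (n : ℕ) (hn : 2 ≤ n) : n ≤ 2 * P (φ n) := by
  obtain ⟨q, hq, hq1, hq2⟩ := Nat.exists_prime_lt_and_le_two_mul (n / 2) (by omega)
  have h3 : Nat.nth Nat.Prime (Nat.count Nat.Prime q) = q := Nat.nth_count hq
  have h4 : q < P (φ n + 1) := lt_of_le_of_lt (by omega) (lt_φ n hn)
  have h5 : Nat.count Nat.Prime q < φ n + 1 := by
    rw [← h3] at h4
    exact (Nat.nth_lt_nth Nat.infinite_setOfPred_prime).1 h4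
  have h6 : P (Nat.count Nat.Prime q) ≤ P (φ n) := (Nat.nth_le_nth Nat.infinite_setOfPred_prime).2 (by omega)
  unfold P at h6
  rw [h3] at h6
  unfold P
  omega

theorem lt_P (m : ℕ) : m < P m := by
  have h : ∀ m : ℕ, m + 2 ≤ P m := by
    intro m
    induction m with
    | zero => unfold P; rw [Nat.nth_prime_zero_eq_two]
    | succ m ih =>
      have : P m < P (m + 1) := (Nat.nth_lt_nth Nat.infinite_setOfPred_prime).2 (Nat.lt_succ_self m)
      omega
  have := h m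
  omega

theorem P_mono {a b : ℕ} (h : a ≤ b) : P a ≤ P b := (Nat.nth_le_nth Nat.infinite_setOfPred_prime).2 h

theorem P_lt {a b : ℕ} (h : a < b) : P a < P b := (Nat.nth_lt_nth Nat.infinite_setOfPred_prime).2 h

/-- constants are absorbed -/
theorem pow_absorb (η : ℝ) (hη : 0 < η) (h : η < 1) (C : ℝ) :
    ∀ᶠ x : ℕ in atTop, (x : ℝ) ^ (1 - η) + C ≤ (x : ℝ) ^ (1 - η / 2) := by
  have h1 : Tendsto (fun x : ℝ => x ^ (η / 2)) atTop atTop := tendsto_rpow_atTop (by linarith)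
  have h2 : Tendsto (fun x : ℝ => x ^ (1 - η)) atTop atTop := tendsto_rpow_atTop (by linarith)
  have h3 := (h1.eventually_ge_atTop 2).and ((h2.eventually_ge_atTop C).and (eventually_gt_atTop 0))
  filter_upwards [tendsto_natCast_atTop_atTop.eventually h3] with x hx
  obtain ⟨k1, k2, k3⟩ := hx
  have h4 : (x : ℝ) ^ (1 - η / 2) = (x : ℝ) ^ (1 - η) * (x : ℝ) ^ (η / 2) := by
    rw [← Real.rpow_add k3]; congr 1; ring
  rw [h4]
  have h5 : 0 ≤ (x : ℝ) ^ (1 - η) := Real.rpow_nonneg k3.le _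
  have h6 := mul_le_mul_of_nonneg_left k1 h5
  linarith

theorem pow_absorb2 (η : ℝ) (hη : 0 < η) (h : η < 1) (c C : ℝ) :
    ∀ᶠ x : ℕ in atTop, (x : ℝ) ^ (1 - η) * (c * (Real.log x) ^ 2) + C ≤ (((x / 2 : ℕ)) : ℝ) ^ (1 - η / 4) := by
  have h1 : Tendsto (fun x : ℝ => x ^ (η / 2)) atTop atTop := tendsto_rpow_atTop (by linarith)
  have h2 : Tendsto (fun x : ℝ => x ^ (1 - 3 * η / 4)) atTop atTop := tendsto_rpow_atTop (by linarith)
  have h0 := (isLittleO_log_rpow_rpow_atTop (s := η / 4) 2 (by linarith)).bound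
    (show (0 : ℝ) < 1 / (|c| + 1) by positivity)
  have h3 := (h1.eventually_ge_atTop 6).and ((h2.eventually_ge_atTop C).and
    ((eventually_gt_atTop 0).and (h0.and (eventually_ge_atTop 6))))
  filter_upwards [tendsto_natCast_atTop_atTop.eventually h3] with x hx
  obtain ⟨k1, k2, k3, k4, k5⟩ := hx
  have hx6 : 6 ≤ x := by exact_mod_cast k5
  have hl0 : 0 ≤ Real.log x := Real.log_nonneg (by linarith)
  have hp4 : 0 ≤ (x : ℝ) ^ (η / 4) := Real.rpow_nonneg k3.le _
  rw [show (Real.log x) ^ (2 : ℝ) = (Real.log x) ^ 2 by norm_cast, Real.norm_of_nonneg (sq_nonneg _),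
    Real.norm_of_nonneg hp4] at k4
  have h5 : c * (Real.log x) ^ 2 ≤ (x : ℝ) ^ (η / 4) := by
    calc c * (Real.log x) ^ 2 ≤ (|c| + 1) * (Real.log x) ^ 2 := by
          gcongr
          linarith [le_abs_self c]
      _ ≤ (|c| + 1) * (1 / (|c| + 1) * (x : ℝ) ^ (η / 4)) := by gcongr
      _ = (x : ℝ) ^ (η / 4) := by field_simp
  have h6 : 0 ≤ (x : ℝ) ^ (1 - η) := Real.rpow_nonneg k3.le _
  have h7 : (x : ℝ) ^ (1 - η) * (x : ℝ) ^ (η / 4) = (x : ℝ) ^ (1 - 3 * η / 4) := by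
    rw [← Real.rpow_add k3]; congr 1; ring
  have h8 : (x : ℝ) ^ (1 - η) * (c * (Real.log x) ^ 2) ≤ (x : ℝ) ^ (1 - 3 * η / 4) := by
    rw [← h7]; gcongr
  have h9 : (x : ℝ) / 3 ≤ ((x / 2 : ℕ) : ℝ) := by
    have a1 : x ≤ 3 * (x / 2) := by omega
    have a2 : (x : ℝ) ≤ 3 * ((x / 2 : ℕ) : ℝ) := by exact_mod_cast a1
    linarith
  have h10 : ((x : ℝ) / 3) ^ (1 - η / 4) ≤ (((x / 2 : ℕ)) : ℝ) ^ (1 - η / 4) :=
    Real.rpow_le_rpow (by positivity) h9 (by linarith)
  refine le_trans ?_ h10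
  rw [Real.div_rpow k3.le (by norm_num), le_div_iff₀ (by positivity)]
  have h11 : (3 : ℝ) ^ (1 - η / 4) ≤ 3 := by
    calc (3 : ℝ) ^ (1 - η / 4) ≤ 3 ^ (1 : ℝ) := Real.rpow_le_rpow_of_exponent_le (by norm_num) (by linarith)
      _ = 3 := Real.rpow_one 3
  have h12 : (x : ℝ) ^ (1 - η / 4) = (x : ℝ) ^ (1 - 3 * η / 4) * (x : ℝ) ^ (η / 2) := by
    rw [← Real.rpow_add k3]; congr 1; ring
  have h13 : 0 ≤ (x : ℝ) ^ (1 - 3 * η / 4) := Real.rpow_nonneg k3.le _
  have h14 : (0 : ℝ) < 3 ^ (1 - η / 4) := by positivity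
  calc ((x : ℝ) ^ (1 - η) * (c * (Real.log x) ^ 2) + C) * 3 ^ (1 - η / 4) ≤
      ((x : ℝ) ^ (1 - 3 * η / 4) + (x : ℝ) ^ (1 - 3 * η / 4)) * 3 ^ (1 - η / 4) := by gcongr
    _ ≤ ((x : ℝ) ^ (1 - 3 * η / 4) + (x : ℝ) ^ (1 - 3 * η / 4)) * 3 := by gcongr
    _ = (x : ℝ) ^ (1 - 3 * η / 4) * 6 := by ring
    _ ≤ (x : ℝ) ^ (1 - 3 * η / 4) * (x : ℝ) ^ (η / 2) := by gcongr
    _ = (x : ℝ) ^ (1 - η / 4) := h12.symm

/-- the analysis of one window with few primes -/
theorem one_few (κ κ' c c' : ℝ) (hκ' : 0 < κ') (h1 : κ' < κ) (hc' : 0 < c') (h2 : c < c') : ∀ᶠ n : ℕ in atTop,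
    (cntP Nat.Prime n ⌊c' * (Real.log n) ^ 2⌋₊ : ℝ) ≤ κ' * Real.log n →
      c * (Real.log (P (φ n))) ^ 2 < B κ (φ n) := by
  have hlog : Tendsto (fun n : ℕ => Real.log n) atTop atTop := Real.tendsto_log_atTop.comp tendsto_natCast_atTop_atTop
  filter_upwards [eventually_ge_atTop 2, hlog.eventually_ge_atTop (κ / (κ - κ')), hlog.eventually_ge_atTop 1,
    hlog.eventually_ge_atTop (1 / (c' - c) + 1)] with n hn hl1 hl2 hl3 hcnt
  rw [cntP_prime] at hcnt
  set Y := ⌊c' * (Real.log n) ^ 2⌋₊ with hY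
  have hP0 : (0 : ℝ) < P (φ n) := by exact_mod_cast (Nat.zero_le _).trans_lt (lt_P (φ n))
  have hP1 : (1 : ℝ) ≤ P (φ n) := by exact_mod_cast (Nat.zero_le _).trans_lt (lt_P (φ n))
  have hPn : ((P (φ n) : ℕ) : ℝ) ≤ n := by exact_mod_cast φ_le n hn
  have hPn2 : (n : ℝ) ≤ 2 * P (φ n) := by exact_mod_cast φ_two n hn
  have hn0 : (0 : ℝ) < n := by linarith
  have hlP : Real.log n - 1 ≤ Real.log (P (φ n)) := by
    have a1 : Real.log n ≤ Real.log (2 * P (φ n)) := Real.log_le_log hn0 hPn2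
    rw [Real.log_mul (by norm_num) hP0.ne'] at a1
    have := Real.log_two_lt_d9
    linarith
  have hlP2 : Real.log (P (φ n)) ≤ Real.log n := Real.log_le_log hP0 hPn
  have hlP0 : 0 ≤ Real.log (P (φ n)) := Real.log_nonneg hP1
  have hκ : 0 < κ := hκ'.trans h1
  have hK : cnt n Y ≤ ⌊κ * Real.log (P (φ n))⌋₊ := by
    apply Nat.le_floor
    rw [div_le_iff₀ (by linarith)] at hl1
    have : κ * (Real.log n - 1) ≤ κ * Real.log (P (φ n)) := by gcongr
    nlinarith
  have hfar := nth_few Nat.Prime Nat.infinite_setOfPred_prime n Y (cnt n Y + 1) (count_pos n hn)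
    (by rw [cntP_prime]; exact Nat.lt_succ_self _)
  have h5 : n + Y < P (φ n + 1 + ⌊κ * Real.log (P (φ n))⌋₊) := by
    refine lt_of_lt_of_le hfar ?_
    apply P_mono
    unfold φ at hK ⊢
    omega
  have h6 : (n : ℝ) + Y + 1 ≤ P (φ n + 1 + ⌊κ * Real.log (P (φ n))⌋₊) := by exact_mod_cast h5
  have hYlt : c' * (Real.log n) ^ 2 < (Y : ℝ) + 1 := Nat.lt_floor_add_one _
  unfold B
  have h7 : c * (Real.log (P (φ n))) ^ 2 ≤ c' * (Real.log n) ^ 2 := by
    rcases le_or_gt c 0 with hc0 | hc0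
    · have a1 : c * (Real.log (P (φ n))) ^ 2 ≤ 0 := mul_nonpos_of_nonpos_of_nonneg hc0 (sq_nonneg _)
      have a2 : 0 ≤ c' * (Real.log n) ^ 2 := by positivity
      linarith
    · have : (Real.log (P (φ n))) ^ 2 ≤ (Real.log n) ^ 2 := by gcongr
      nlinarith
  linarith

/-- the analysis of one window with many primes -/
theorem one_many (κ κ' c : ℝ) (hκ : 0 < κ) (h1 : κ < κ') (hc : 0 < c) : ∀ᶠ n : ℕ in atTop,
    κ' * Real.log n ≤ (cntP Nat.Prime n ⌊c * (Real.log n) ^ 2⌋₊ : ℝ) →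
      n < P (φ n + 1) ∧ P (φ n + 1) ≤ n + ⌊c * (Real.log n) ^ 2⌋₊ ∧ n + ⌊c * (Real.log n) ^ 2⌋₊ ≤ 2 * n ∧
        B κ (φ n + 1) < c * (Real.log (P (φ n + 1))) ^ 2 := by
  have hlog : Tendsto (fun n : ℕ => Real.log n) atTop atTop := Real.tendsto_log_atTop.comp tendsto_natCast_atTop_atTop
  have h0 := (Real.isLittleO_pow_log_id_atTop (n := 2)).bound (show (0 : ℝ) < 1 / c by positivity)
  filter_upwards [eventually_ge_atTop 2, hlog.eventually_ge_atTop ((κ + 3) / (κ' - κ)), hlog.eventually_ge_atTop 1,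
    tendsto_natCast_atTop_atTop (R := ℝ) |>.eventually h0] with n hn hl1 hl2 hl3 hcnt
  rw [cntP_prime] at hcnt
  have hn0 : (2 : ℝ) ≤ n := by exact_mod_cast hn
  rw [Real.norm_of_nonneg (sq_nonneg _), id, Real.norm_of_nonneg (by linarith)] at hl3
  set Y := ⌊c * (Real.log n) ^ 2⌋₊ with hY
  have hYle : (Y : ℝ) ≤ c * (Real.log n) ^ 2 := Nat.floor_le (by positivity)
  have hYn : (Y : ℝ) ≤ n := by
    have : c * (Real.log n) ^ 2 ≤ c * (1 / c * n) := by gcongr
    have h3 : c * (1 / c * n) = n := by field_simp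
    linarith
  have hYn' : n + Y ≤ 2 * n := by
    have : Y ≤ n := by exact_mod_cast hYn
    omega
  have hcp := count_pos n hn
  have hidx : φ n + 1 = Nat.count Nat.Prime (n + 1) := by unfold φ; omega
  have hnth : ∀ K, K < cnt n Y → P (φ n + 1 + K) ≤ n + Y := by
    intro K hK
    have := nth_many Nat.Prime n Y K (by rw [cntP_prime]; exact hK)
    unfold P
    rw [hidx]
    exact this
  have hpos : 3 < (cnt n Y : ℝ) := by
    rw [div_le_iff₀ (by linarith)] at hl1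
    have : 0 < κ * Real.log n := by positivity
    nlinarith
  have hpos' : 3 < cnt n Y := by exact_mod_cast hpos
  have hP := hnth 0 (by omega)
  rw [add_zero] at hP
  refine ⟨lt_φ n hn, hP, hYn', ?_⟩
  have hlt : (n : ℝ) < P (φ n + 1) := by exact_mod_cast lt_φ n hn
  have hle : ((P (φ n + 1) : ℕ) : ℝ) ≤ 2 * n := by exact_mod_cast hP.trans hYn'
  have hlP : Real.log (P (φ n + 1)) ≤ Real.log n + 1 := by
    have a1 : Real.log (P (φ n + 1)) ≤ Real.log (2 * n) := Real.log_le_log (by linarith) hle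
    rw [Real.log_mul (by norm_num) (by linarith)] at a1
    have := Real.log_two_lt_d9
    linarith
  have hlP2 : Real.log n ≤ Real.log (P (φ n + 1)) := Real.log_le_log (by linarith) hlt.le
  have hfl : (⌊κ * Real.log (P (φ n + 1))⌋₊ : ℝ) ≤ κ * Real.log (P (φ n + 1)) :=
    Nat.floor_le (mul_nonneg hκ.le (by linarith))
  have hK : ((1 + ⌊κ * Real.log (P (φ n + 1))⌋₊ : ℕ) : ℝ) < cnt n Y := by
    push_cast
    rw [div_le_iff₀ (by linarith)] at hl1
    have : κ * Real.log (P (φ n + 1)) ≤ κ * (Real.log n + 1) := by gcongr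
    nlinarith
  have hK' : 1 + ⌊κ * Real.log (P (φ n + 1))⌋₊ < cnt n Y := by exact_mod_cast hK
  have h8 := hnth _ hK'
  have h9 : (P (φ n + 1 + (1 + ⌊κ * Real.log (P (φ n + 1))⌋₊)) : ℝ) ≤ n + Y := by exact_mod_cast h8
  unfold B
  rw [add_assoc (φ n + 1)]
  have h10 : c * (Real.log n) ^ 2 ≤ c * (Real.log (P (φ n + 1))) ^ 2 := by gcongr
  linarith

theorem long_part (κ c η : ℝ) (hκ : 0 < κ) (hη : 0 < η) (hη1 : η < 1)
    (hc : c < 2 * Real.exp (-Real.eulerMascheroniConstant) * κ) : ∀ᶠ x : ℕ in atTop,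
      (x : ℝ) ^ (1 - η) ≤ ∑ m ∈ (range x).filter (fun m => P m ≤ x ∧ c * (Real.log (P m)) ^ 2 < B κ m),
        ((P (m + 1) : ℝ) - P m) := by
  set e := 2 * Real.exp (-Real.eulerMascheroniConstant) with he
  have he0 : 0 < e := by positivity
  obtain ⟨κ', h1, h2⟩ := exists_between (max_lt (show c / e < κ by rw [div_lt_iff₀ he0]; linarith) hκ)
  have hκ'0 : 0 < κ' := (le_max_right _ _).trans_lt h1
  have h3 : c < e * κ' := by
    have : c / e < κ' := (le_max_left _ _).trans_lt h1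
    rw [div_lt_iff₀ he0] at this
    linarith
  obtain ⟨c', h4, h5⟩ := exists_between (max_lt h3 (show 0 < e * κ' by positivity))
  have hc'0 : 0 < c' := (le_max_right _ _).trans_lt h4
  have hcc' : c < c' := (le_max_left _ _).trans_lt h4
  obtain ⟨N0, hN0⟩ := eventually_atTop.1 (one_few κ κ' c c' hκ'0 h2 hc'0 hcc')
  filter_upwards [G.few_freq κ' c' (η / 2) hκ'0 h5 (by linarith), pow_absorb η hη hη1 ((N0 + 2 : ℕ) : ℝ)] with x hx1 hx2
  unfold G.NF at hx1
  set F := (Icc 1 x).filter (fun n : ℕ => (cntP Nat.Prime n ⌊c' * (Real.log n) ^ 2⌋₊ : ℝ) ≤ κ' * Real.log n) with hF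
  set F' := F.filter (fun n => N0 + 2 ≤ n) with hF'
  have hcard : F.card ≤ F'.card + (N0 + 2) := by
    have hsub : F ⊆ F' ∪ range (N0 + 2) := by
      intro n hn
      rw [Finset.mem_union]
      by_cases h : N0 + 2 ≤ n
      · left; rw [hF', Finset.mem_filter]; exact ⟨hn, h⟩
      · right; rw [Finset.mem_range]; omega
    refine (Finset.card_le_card hsub).trans ((Finset.card_union_le _ _).trans ?_)
    rw [Finset.card_range]
  set M := (range x).filter (fun m => P m ≤ x ∧ c * (Real.log (P m)) ^ 2 < B κ m) with hM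
  have hprop : ∀ n ∈ F', 2 ≤ n ∧ n ≤ x ∧ c * (Real.log (P (φ n))) ^ 2 < B κ (φ n) := by
    intro n hn
    rw [hF', Finset.mem_filter, hF, Finset.mem_filter, Finset.mem_Icc] at hn
    exact ⟨by omega, hn.1.1.2, hN0 n (by omega) hn.1.2⟩
  have hmaps : ∀ n ∈ F', φ n ∈ M := by
    intro n hn
    obtain ⟨a1, a2, a3⟩ := hprop n hn
    have a4 := φ_le n a1
    have a5 := lt_P (φ n)
    rw [hM, Finset.mem_filter, Finset.mem_range]
    exact ⟨by omega, by omega, a3⟩
  have hsum : F'.card = ∑ m ∈ M, (F'.filter (fun n => φ n = m)).card :=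
    Finset.card_eq_sum_card_fiberwise hmaps
  have hfib : ∀ m ∈ M, ((F'.filter (fun n => φ n = m)).card : ℝ) ≤ (P (m + 1) : ℝ) - P m := by
    intro m _
    have hsub : F'.filter (fun n => φ n = m) ⊆ Finset.Ico (P m) (P (m + 1)) := by
      intro n hn
      rw [Finset.mem_filter] at hn
      obtain ⟨a1, -, -⟩ := hprop n hn.1
      rw [Finset.mem_Ico, ← hn.2]
      exact ⟨φ_le n a1, lt_φ n a1⟩
    have h6 := Finset.card_le_card hsub
    rw [Nat.card_Ico] at h6
    have h7 : P m ≤ P (m + 1) := P_mono (Nat.le_succ m)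
    have h8 : ((F'.filter (fun n => φ n = m)).card : ℝ) ≤ ((P (m + 1) - P m : ℕ) : ℝ) := by exact_mod_cast h6
    rwa [Nat.cast_sub h7] at h8
  have h9 : (F'.card : ℝ) ≤ ∑ m ∈ M, ((P (m + 1) : ℝ) - P m) := by
    rw [hsum]
    push_cast
    exact Finset.sum_le_sum hfib
  have h10 : (F.card : ℝ) ≤ F'.card + ((N0 + 2 : ℕ) : ℝ) := by exact_mod_cast hcard
  linarith

theorem short_part (κ c η : ℝ) (hκ : 0 < κ) (hη : 0 < η) (hη1 : η < 1)
    (hc : κ < 1.07 * c) : ∀ᶠ x : ℕ in atTop,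
      (x : ℝ) ^ (1 - η) ≤
        (((range x).filter (fun m => P m ≤ x ∧ B κ m < c * (Real.log (P m)) ^ 2)).card : ℝ) := by
  obtain ⟨κ', h1, h2⟩ := exists_between hc
  have hκ'0 : 0 < κ' := hκ.trans h1
  have hc0 : 0 < c := by
    by_contra h
    push Not at h
    nlinarith
  have h3 : κ' / 1.07 < c := by rw [div_lt_iff₀ (by norm_num)]; linarith
  obtain ⟨N0, hN0⟩ := eventually_atTop.1 (one_many κ κ' c hκ h1 hc0)
  have htend : Tendsto (fun x : ℕ => x / 2) atTop atTop := Nat.tendsto_div_const_atTop (by norm_num)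
  filter_upwards [htend.eventually (G.many_freq κ' c (η / 4) hκ'0 h3 (by linarith)),
    pow_absorb2 η hη hη1 c ((N0 + 2 : ℕ) : ℝ), eventually_ge_atTop 4,
    (Real.tendsto_log_atTop.comp (tendsto_natCast_atTop_atTop (R := ℝ))).eventually_gt_atTop 0] with x hx1 hx2 hx4 hlx
  simp only [Function.comp_def] at hlx
  unfold G.NM at hx1
  set F := (Icc 1 (x / 2)).filter (fun n : ℕ => κ' * Real.log n ≤ (cntP Nat.Prime n ⌊c * (Real.log n) ^ 2⌋₊ : ℝ)) with hF
  set F' := F.filter (fun n => N0 + 2 ≤ n) with hF'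
  have hcard : F.card ≤ F'.card + (N0 + 2) := by
    have hsub : F ⊆ F' ∪ range (N0 + 2) := by
      intro n hn
      rw [Finset.mem_union]
      by_cases h : N0 + 2 ≤ n
      · left; rw [hF', Finset.mem_filter]; exact ⟨hn, h⟩
      · right; rw [Finset.mem_range]; omega
    refine (Finset.card_le_card hsub).trans ((Finset.card_union_le _ _).trans ?_)
    rw [Finset.card_range]
  set M := (range x).filter (fun m => P m ≤ x ∧ B κ m < c * (Real.log (P m)) ^ 2) with hM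
  set W := ⌊c * (Real.log x) ^ 2⌋₊ with hW
  have hprop : ∀ n ∈ F', 2 ≤ n ∧ n < P (φ n + 1) ∧ P (φ n + 1) ≤ n + W ∧ P (φ n + 1) ≤ x ∧
      B κ (φ n + 1) < c * (Real.log (P (φ n + 1))) ^ 2 := by
    intro n hn
    rw [hF', Finset.mem_filter, hF, Finset.mem_filter, Finset.mem_Icc] at hn
    obtain ⟨a1, a2, a3, a4⟩ := hN0 n (by omega) hn.1.2
    have hn2 : (2 : ℝ) ≤ n := by exact_mod_cast (show 2 ≤ n by omega)
    have hnx : (n : ℝ) ≤ x := by exact_mod_cast (show n ≤ x by omega)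
    have a5 : ⌊c * (Real.log n) ^ 2⌋₊ ≤ W := by
      apply Nat.floor_le_floor
      have : 0 ≤ Real.log n := Real.log_nonneg (by linarith)
      have : Real.log n ≤ Real.log x := Real.log_le_log (by linarith) hnx
      gcongr
    exact ⟨by omega, a1, by omega, by omega, a4⟩
  have hmaps : ∀ n ∈ F', φ n + 1 ∈ M := by
    intro n hn
    obtain ⟨a1, a2, a3, a4, a5⟩ := hprop n hn
    have a6 := lt_P (φ n + 1)
    rw [hM, Finset.mem_filter, Finset.mem_range]
    exact ⟨by omega, a4, a5⟩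
  have hsum : F'.card = ∑ m ∈ M, (F'.filter (fun n => φ n + 1 = m)).card :=
    Finset.card_eq_sum_card_fiberwise hmaps
  have hfib : ∀ m ∈ M, (F'.filter (fun n => φ n + 1 = m)).card ≤ W := by
    intro m _
    have hsub : F'.filter (fun n => φ n + 1 = m) ⊆ Finset.Ico (P m - W) (P m) := by
      intro n hn
      rw [Finset.mem_filter] at hn
      obtain ⟨a1, a2, a3, -, -⟩ := hprop n hn.1
      rw [hn.2] at a2 a3
      rw [Finset.mem_Ico]
      omega
    have h6 := Finset.card_le_card hsub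
    rw [Nat.card_Ico] at h6
    omega
  have h9 : F'.card ≤ M.card * W := by
    rw [hsum]
    refine (Finset.sum_le_sum hfib).trans ?_
    rw [Finset.sum_const, smul_eq_mul]
  have h9' : (F'.card : ℝ) ≤ M.card * (c * (Real.log x) ^ 2) := by
    have a1 : (F'.card : ℝ) ≤ M.card * W := by exact_mod_cast h9
    have a2 : (W : ℝ) ≤ c * (Real.log x) ^ 2 := Nat.floor_le (by positivity)
    exact a1.trans (by gcongr)
  have h10 : (F.card : ℝ) ≤ F'.card + ((N0 + 2 : ℕ) : ℝ) := by exact_mod_cast hcard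
  have h11 : (x : ℝ) ^ (1 - η) * (c * (Real.log x) ^ 2) ≤ M.card * (c * (Real.log x) ^ 2) := by linarith
  exact le_of_mul_le_mul_right h11 (by positivity)

/-- Let `κ, η > 0`. (1) If `c < 2 e^(-γ) κ`, then for all large `x` the first differences `p_(m+1) - p_m` of
the blocks with `p_m ≤ x` and `p_(m + 1 + ⌊κ log p_m⌋) - p_m > c (log p_m)²` have sum at least `x^(1 - η)`.
(2) If `κ < 1.07 c`, then for all large `x` there are at least `x^(1 - η)` indices `m` with `p_m ≤ x` and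
`p_(m + 1 + ⌊κ log p_m⌋) - p_m < c (log p_m)²`. -/
theorem result (κ c η : ℝ) (hκ : 0 < κ) (hη : 0 < η) :
    (c < 2 * Real.exp (-Real.eulerMascheroniConstant) * κ → ∃ x₀ : ℕ, ∀ x ≥ x₀,
      (x : ℝ) ^ (1 - η) ≤ ∑ m ∈ (range x).filter (fun m => P m ≤ x ∧ c * (Real.log (P m)) ^ 2 < B κ m),
        ((P (m + 1) : ℝ) - P m)) ∧
    (κ < 1.07 * c → ∃ x₀ : ℕ, ∀ x ≥ x₀,
      (x : ℝ) ^ (1 - η) ≤
        (((range x).filter (fun m => P m ≤ x ∧ B κ m < c * (Real.log (P m)) ^ 2)).card : ℝ)) := by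
  have hmin0 : 0 < min η (1 / 2) := lt_min hη (by norm_num)
  have hmin1 : min η (1 / 2) < 1 := (min_le_right _ _).trans_lt (by norm_num)
  have hle : ∀ x : ℕ, 1 ≤ x → (x : ℝ) ^ (1 - η) ≤ (x : ℝ) ^ (1 - min η (1 / 2)) := by
    intro x hx
    apply Real.rpow_le_rpow_of_exponent_le (by exact_mod_cast hx)
    linarith [min_le_left η (1 / 2)]
  constructor
  · intro hc
    obtain ⟨x₀, h⟩ := eventually_atTop.1 (long_part κ c _ hκ hmin0 hmin1 hc)
    exact ⟨x₀ + 1, fun x hx => (hle x (by omega)).trans (h x (by omega))⟩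
  · intro hc
    obtain ⟨x₀, h⟩ := eventually_atTop.1 (short_part κ c _ hκ hmin0 hmin1 hc)
    exact ⟨x₀ + 1, fun x hx => (hle x (by omega)).trans (h x (by omega))⟩

end Pool.Agent.Results.MP_69be96_nt.BlocksOfGaps
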