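import Mathlib
import Pool.Agent.Q46.CM.Final4
import Pool.Agent.Q46.CM.Exist

/-!
# Cramér's inequality `g < (log p)²` in the random models: a zero-one law with the exact second order term

Sieved random model (Cramér, Granville): in the dyadic block `[2 ^ j, 2 ^ (j + 1))` remove the integers with a prime
factor `≤ z j`, and keep the other integers `n` independently, each with probability `min 1 (1 / (V (z j) log n))`,
`V z = ∏_{p ≤ z} (1 - 1/p)`. (`z j = 1` is Cramér's own model.) For consecutive kept integers `q < q'` let
`g(q) = q' - q - 1`, as in the problem. We show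

* a zero-one law: for every level `z` and EVERY function `F`, almost surely `g(q) ≥ F(q)` for infinitely many kept `q`
  or for finitely many, according as the series of the probabilities
  `P(n is kept, n + 1, ..., n + ⌈F(n)⌉ are not)` diverges or converges;
* for every constant level (`z j = z₀`, Cramér's own model among them): almost surely
  `g(q) ≥ (log q)² + c log q log log q` for infinitely many kept `q` if `c ≤ 0`, but only for finitely many if `c > 0`.

So (`c = 0`) the inequality `g < (log p)²` of the question fails infinitely often in these models with probability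
one, but barely: with any positive multiple of `log q log log q` added it is true from some point on.

The events `n kept, next gap long` are pairwise nonpositively correlated for any thresholds, and the divergence half is
the second moment method for them.
-/

set_option autoImplicit false

namespace Pool.Agent.Results.MP_69be96_nt.CramersBoundInRandomModels

open Filter Topology MeasureTheory ProbabilityTheory Pool.Agent.H318R2.Cr Pool.Agent.Q46.CM

universe u

/-- (0) The sieved model exists for every `z`. (1) Zero-one law for `g(q) ≥ F(q)` for all levels `z` and all `F`.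
(2) For constant levels: `g(q) ≥ (log q)² + c log q log log q` for infinitely many kept `q` almost surely if `c ≤ 0`,
and for finitely many kept `q` almost surely if `c > 0`. -/
theorem result :
    (∀ z : ℕ → ℕ, ∃ (μ : Measure (ℕ → Bool)) (A : ℕ → Set (ℕ → Bool)), IsSievedModel μ z A) ∧
    (∀ (z : ℕ → ℕ) (F : ℕ → ℝ) (Ω : Type u) [MeasurableSpace Ω] (μ : Measure Ω) (A : ℕ → Set Ω),
      IsSievedModel μ z A →
        ((Summable fun n => keepProb z n * ∏ m ∈ Finset.Ioc n (n + ⌈F n⌉₊), (1 - keepProb z m)) →
          ∀ᵐ ω ∂μ, (LongGaps {n | ω ∈ A n} F).Finite) ∧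
        ((¬ Summable fun n => keepProb z n * ∏ m ∈ Finset.Ioc n (n + ⌈F n⌉₊), (1 - keepProb z m)) →
          ∀ᵐ ω ∂μ, (LongGaps {n | ω ∈ A n} F).Infinite)) ∧
    (∀ (z₀ : ℕ) (Ω : Type u) [MeasurableSpace Ω] (μ : Measure Ω) (A : ℕ → Set Ω),
      IsSievedModel μ (fun _ => z₀) A →
        (∀ c : ℝ, 0 < c → ∀ᵐ ω ∂μ,
          (LongGaps {n | ω ∈ A n} (fun q => Real.log q ^ 2 + c * Real.log q * Real.log (Real.log q))).Finite) ∧
        (∀ c : ℝ, c ≤ 0 → ∀ᵐ ω ∂μ,
          (LongGaps {n | ω ∈ A n} (fun q => Real.log q ^ 2 + c * Real.log q * Real.log (Real.log q))).Infinite)) :=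
  ⟨exists_model, fun _ F _ _ _ _ hA => ⟨z1 hA F, z2 hA F⟩,
    fun _ _ _ _ _ hA => ⟨fun _ hc => z3 hA hc, fun _ hc => z4 hA hc⟩⟩

end Pool.Agent.Results.MP_69be96_nt.CramersBoundInRandomModels
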