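import Pool.Agent.Q318.RG.Box
import Pool.Agent.H438R2.Nest
import Pool.Agent.Q233.JB.Step
import Pool.Agent.Q233.JB.Gcd
import Pool.Agent.Q233.JB.Fibre
import Pool.Agent.Q233.JB.Image
import Pool.Agent.Q233.JB.Sep
import Pool.Agent.Q233.JB.Pairs
import Pool.Agent.Q233.JB.Coarse
import Pool.Agent.Q233.JB.Frac
import Pool.Agent.Q233.JB.Num

/-!
# The theorem of Jarník and Besicovitch inside record prime gaps

Let `f(x) = log x (log₂ x)² log₄ x / (log₃ x)²`, the size of the largest gaps between consecutive primes that are known to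
occur up to `x`. For `τ ≥ 2` the set of the real numbers `α` with infinitely many `p / q` such that
`|α - p / q| < q ^ (-τ)` has the Hausdorff dimension `2 / τ` (Jarník, Besicovitch). We show that the dimension does not
drop if BOTH the numerator `p` and the denominator `q` have to lie in prime gaps of record length: for every `s < 2 / τ`
there is `κ > 0` such that for every interval `(a, b) ⊆ [1, 2]` the set of the `α ∈ (a, b)` with infinitely many such
`p / q` for which no prime lies at distance at most `κ f(q)` of `p` or of `q` has at least the dimension `s`; and the set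
of the `α ∈ (a, b)` for which this holds for some `κ > 0` has at least the dimension `2 / τ`.

Proof. The criterion of helper46 (`Pool.Agent.Q46.MH.crit_many`, on the record covering criterion of the starting files) in
the form of helper318 (`Pool.Agent.Q318.RG.unimod`) gives `n² Q ^ (-ε)` pairs `(q, p)` inside record gaps in every box of
side `n ≥ Q ^ ε`. A Cantor set is built from clusters of the fractions `p / q` in equally spaced small boxes
(`Pool.Agent.Q233.JB.Step`, from eight elementary lemmas proved by helpers 44, 151, 153, 180, 197, 209, 226, 299), with the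
criterion for the Hausdorff measure of such sets from the starting files (`Pool.Agent.H438R2.nest`).
-/

set_option autoImplicit false

namespace Pool.Agent.Results.MP_69be96_nt.DimensionOfApproximableNumbers

open Filter Metric MeasureTheory
open Pool.Agent.W147.PS (ff ff_compare)
open Pool.Agent.Q233.JB (Hyp Vs step)
open scoped ENNReal NNReal

/-- the record scale `log x (log₂ x)² log₄ x / (log₃ x)²` -/
noncomputable def scale (x : ℝ) : ℝ :=
  Real.log x * (Real.log (Real.log x)) ^ 2 * Real.log (Real.log (Real.log (Real.log x))) /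
    (Real.log (Real.log (Real.log x))) ^ 2

/-- no prime at distance at most `K` of the natural number `n` -/
def Isolated (K : ℝ) (n : ℕ) : Prop := ∀ l : ℕ, l.Prime → K < |(l : ℝ) - n|

/-- `α` has arbitrarily large approximations `p / q` of the exponent `τ` with both `p` and `q` inside record gaps -/
def Approximable (τ κ α : ℝ) : Prop :=
  ∀ T : ℝ, ∃ p q : ℕ, T ≤ q ∧ |α - (p : ℝ) / q| < (q : ℝ) ^ (-τ) ∧
    Isolated (κ * scale q) p ∧ Isolated (κ * scale q) q

/-- the good pairs -/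
def W (κ : ℝ) (Q q p : ℕ) : Prop := Isolated (κ * ff Q) q ∧ Isolated (κ * ff Q) p

lemma exists_hyp (ε : ℝ) (h0 : 0 < ε) (h1 : ε ≤ 1) : ∃ κ : ℝ, 0 < κ ∧ Hyp ε (W κ) := by
  classical
  obtain ⟨κ, hκ, h⟩ := Pool.Agent.Q318.RG.unimod 2 (by norm_num) ε h0 h1
  refine ⟨κ, hκ, ?_⟩
  filter_upwards [tendsto_natCast_atTop_atTop.eventually h, eventually_ge_atTop 1] with Q hQ hQ1
  intro P n hQP hn hnQ
  have hQr : (1 : ℝ) ≤ Q := by exact_mod_cast hQ1
  have hε : (Q : ℝ) ^ ε ≤ Q := by
    calc (Q : ℝ) ^ ε ≤ (Q : ℝ) ^ (1 : ℝ) := Real.rpow_le_rpow_of_exponent_le hQr h1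
      _ = Q := Real.rpow_one _
  have h2 := hQ (1 : Matrix (Fin 2) (Fin 2) ℤ) (by simp) ![(Q : ℤ), (P : ℤ)] (fun _ => n) (fun _ => hn) (by
    intro x _ i
    have h3 : (∑ j, (1 : Matrix (Fin 2) (Fin 2) ℤ) i j * (x j : ℤ)) = (x i : ℤ) := by
      simp [Matrix.one_apply]
    rw [h3]
    have h4 : (0 : ℝ) ≤ (x i : ℝ) := Nat.cast_nonneg _
    have h5 : (Q : ℝ) ≤ P := by exact_mod_cast hQP
    fin_cases i
    · push_cast
      linarith
    · push_cast
      linarith)
  set S := (Fintype.piFinset fun _ : Fin 2 => Finset.range n).filter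
    (fun x => Pool.Agent.Q46.MH.Iso (κ * ff Q)
      (fun i => (![(Q : ℤ), (P : ℤ)] : Fin 2 → ℤ) i + ∑ j, (1 : Matrix (Fin 2) (Fin 2) ℤ) i j * (x j : ℤ))) with hS
  have hinj : Function.Injective (fun x : Fin 2 → ℕ => (x 0, x 1)) := by
    intro x y hxy
    simp only [Prod.mk.injEq] at hxy
    funext i
    fin_cases i
    · exact hxy.1
    · exact hxy.2
  refine ⟨S.image (fun x => (x 0, x 1)), ?_, ?_, ?_⟩
  · intro z hz
    obtain ⟨x, hx, rfl⟩ := Finset.mem_image.1 hz
    have h3 := (Finset.mem_filter.1 hx).1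
    rw [Fintype.mem_piFinset] at h3
    exact Finset.mem_product.2 ⟨h3 0, h3 1⟩
  · intro z hz
    obtain ⟨x, hx, rfl⟩ := Finset.mem_image.1 hz
    have h3 := (Finset.mem_filter.1 hx).2
    constructor
    · intro l hl
      have h4 := h3 0 l hl
      simp [Matrix.one_apply] at h4
      push_cast
      exact h4
    · intro l hl
      have h4 := h3 1 l hl
      simp [Matrix.one_apply] at h4
      push_cast
      exact h4
  · rw [Finset.card_image_of_injective _ hinj]
    refine le_trans (le_of_eq ?_) h2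
    simp

lemma isolated_mono {K K' : ℝ} {n : ℕ} (h : K' ≤ K) (hn : Isolated K n) : Isolated K' n :=
  fun l hl => lt_of_le_of_lt h (hn l hl)

lemma main (τ s : ℝ) (hτ : 2 ≤ τ) (hs : s < 2 / τ) : ∃ κ : ℝ, 0 < κ ∧ ∀ a b : ℝ, 1 ≤ a → a < b → b ≤ 2 →
    ENNReal.ofReal s ≤ dimH {α : ℝ | (a < α ∧ α < b) ∧ Approximable τ κ α} := by
  rcases le_or_gt s 0 with hs0 | hs0
  · refine ⟨1, one_pos, fun a b _ _ _ => ?_⟩
    rw [ENNReal.ofReal_of_nonpos hs0]
    exact bot_le
  have hτ0 : 0 < τ := by linarith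
  have hτs : τ * s < 2 := by
    rw [lt_div_iff₀ hτ0] at hs
    linarith
  obtain ⟨ε, hε0, hε1, hstep⟩ := step Q233.JB.taskGcd Q233.JB.taskFibre Q233.JB.taskImage Q233.JB.taskSep
    Q233.JB.taskPairs Q233.JB.taskCoarse Q233.JB.taskFrac Q233.JB.taskNum s τ hs0 hτ hτs
  obtain ⟨κ, hκ, hW⟩ := exists_hyp ε hε0 hε1
  refine ⟨κ / 64, by positivity, fun a b ha hab hb => ?_⟩
  obtain ⟨x0, hx0⟩ : ∃ x0 : ℝ, x0 = (a + b) / 2 := ⟨_, rfl⟩
  obtain ⟨R, hR⟩ : ∃ R : ℝ, R = (b - a) / 4 := ⟨_, rfl⟩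
  have hR0 : 0 < R := by rw [hR]; linarith
  have hnest := Pool.Agent.H438R2.nest (X := ℝ) s (1 / 40) hs0 (by norm_num) (by norm_num)
    {c | 0 < c.2 ∧ closedBall c.1 c.2 ⊆ Set.Icc 1 2} (Vs τ (W κ)) (fun c hc => hc.1)
    (fun c hc j δ hδ => by
      obtain ⟨r, F, hr, hrδ, hF, hN, hG⟩ := hstep (W κ) hW c.1 c.2 hc.1 hc.2 j δ hδ
      exact ⟨r, F, hr, hrδ, fun y hy => ⟨⟨hr, (hF y hy).1.trans hc.2⟩, (hF y hy).1, (hF y hy).2⟩, hN, hG⟩)
    (x0, R) ⟨hR0, by
      intro y hy
      rw [mem_closedBall, Real.dist_eq] at hy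
      have h1 := abs_le.1 hy
      simp only at h1
      rw [hx0, hR] at h1
      constructor <;> linarith [h1.1, h1.2]⟩
  have hsub : ({x : ℝ | ∀ j, x ∈ Vs τ (W κ) j} ∩ closedBall x0 R) ⊆
      {α : ℝ | (a < α ∧ α < b) ∧ Approximable τ (κ / 64) α} := by
    rintro α ⟨hα, hαc⟩
    constructor
    · rw [mem_closedBall, Real.dist_eq] at hαc
      have h1 := abs_le.1 hαc
      rw [hx0, hR] at h1
      constructor <;> linarith [h1.1, h1.2]
    · intro T
      obtain ⟨M₁, hM₁⟩ := eventually_atTop.1 (ff_compare (1 / 2) (by norm_num) (by norm_num))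
      obtain ⟨Q, q, p, hj, hQq, hq2, hWq, hlt⟩ := hα (max ⌈max T M₁⌉₊ 2)
      have hQ2 : 2 ≤ Q := le_trans (le_max_right _ _) hj
      have hQT : max T M₁ ≤ (Q : ℝ) :=
        (Nat.le_ceil _).trans (by exact_mod_cast (le_max_left _ _).trans hj)
      have hQqr : (Q : ℝ) ≤ q := by exact_mod_cast hQq
      have hq2r : (q : ℝ) ≤ 2 * Q := by exact_mod_cast hq2.le
      have hQ2r : (2 : ℝ) ≤ Q := by exact_mod_cast hQ2
      have hcmp := ((hM₁ q (((le_max_right _ _).trans hQT).trans hQqr)).2 Q (by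
        rw [← Real.sqrt_eq_rpow, Real.sqrt_le_left (by linarith)]
        nlinarith) (by nlinarith)).1
      have hle : κ / 64 * scale q ≤ κ * ff Q := by
        have h1 := mul_le_mul_of_nonneg_left hcmp hκ.le
        calc κ / 64 * scale q = κ * (1 / 2 / 32 * ff q) := by
              unfold scale ff
              ring
          _ ≤ _ := h1
      exact ⟨p, q, ((le_max_left _ _).trans hQT).trans hQqr, hlt, isolated_mono hle hWq.2, isolated_mono hle hWq.1⟩
  refine le_trans ?_ (dimH_mono hsub)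
  have h1 : ENNReal.ofReal s = ((s.toNNReal : ℝ≥0) : ℝ≥0∞) := rfl
  rw [h1]
  apply le_dimH_of_hausdorffMeasure_ne_zero
  rw [Real.coe_toNNReal s hs0.le]
  exact hnest

/-- **Theorem (Jarník–Besicovitch inside record prime gaps).** Let `τ ≥ 2`.
1. For every `s < 2 / τ` there is `κ > 0` such that for every interval `(a, b) ⊆ [1, 2]` the set of the real numbers
   `α ∈ (a, b)` with arbitrarily large `p / q`, `|α - p / q| < q ^ (-τ)`, without primes at distance at most `κ f(q)` of
   `p` and of `q`, has at least the Hausdorff dimension `s`.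
2. For every interval `(a, b) ⊆ [1, 2]` the set of the `α ∈ (a, b)` for which there is such a `κ > 0` has at least the
   Hausdorff dimension `2 / τ`. -/
theorem result (τ : ℝ) (hτ : 2 ≤ τ) :
    (∀ s : ℝ, s < 2 / τ → ∃ κ : ℝ, 0 < κ ∧ ∀ a b : ℝ, 1 ≤ a → a < b → b ≤ 2 →
      ENNReal.ofReal s ≤ dimH {α : ℝ | (a < α ∧ α < b) ∧ Approximable τ κ α}) ∧
    ∀ a b : ℝ, 1 ≤ a → a < b → b ≤ 2 →
      ENNReal.ofReal (2 / τ) ≤ dimH {α : ℝ | (a < α ∧ α < b) ∧ ∃ κ : ℝ, 0 < κ ∧ Approximable τ κ α} := by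
  refine ⟨fun s hs => main τ s hτ hs, fun a b ha hab hb => ?_⟩
  refine le_of_forall_lt fun c hc => ?_
  have hcne : c ≠ ⊤ := ne_top_of_lt hc
  obtain ⟨d, hd1, hd2⟩ := exists_between hc
  have hdne : d ≠ ⊤ := ne_top_of_lt hd2
  have hd3 : d.toReal < 2 / τ := by
    rw [← ENNReal.ofReal_toReal hdne] at hd2
    exact (ENNReal.ofReal_lt_ofReal_iff (by positivity)).1 hd2
  obtain ⟨κ, hκ, h⟩ := main τ d.toReal hτ hd3
  have h1 := h a b ha hab hb
  rw [ENNReal.ofReal_toReal hdne] at h1
  refine lt_of_lt_of_le hd1 (h1.trans (dimH_mono ?_))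
  rintro α ⟨h2, h3⟩
  exact ⟨h2, κ, hκ, h3⟩

end Pool.Agent.Results.MP_69be96_nt.DimensionOfApproximableNumbers
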