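import Pool.Agent.Q318.RG.Approx

/-!
# Diophantine approximation inside record prime gaps

Let `f(x) = log x (log₂ x)² log₄ x / (log₃ x)²`, the size of the largest gaps between consecutive
primes that are known to occur up to `x`.

For every `0 < ε ≤ 1` there is `κ > 0` such that for EVERY irrational `α > 0` and every real `β` the
inequality `|q α - p - β| < q^(-1 + ε)` has solutions in positive integers with arbitrarily large `q`
for which no prime lies at distance at most `κ f(q)` of `p` or of `q`: BOTH the numerator and the
denominator are in the middle of prime gaps of record length. The exponent is optimal up to `ε` for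
every badly approximable `α` (for instance `√d`), where the solutions with `β = 0` of
`|q α - p| < c / q` are, for small `c`, nonexistent.

For instance (`α = √d`, `β = 0`): `|x² - d y²| ≤ y^ε` has infinitely many solutions with `x` and `y`
in the middle of record gaps.

Design and proof: helper318 (`Pool.Agent.Q318.RG`), on the criterion `Pool.Agent.Q46.MH.crit_many` of
helper46, which rests on the record covering criterion for vectors of integers of the starting
repository (`Pool.Agent.Y961.JR.critJ`). The pairs `(q, p)` are taken from the image of a small box under
the unimodular matrix formed by two consecutive good approximations; the sums of exponential functions over the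
image of a box under a unimodular matrix are products of geometric sums, and one of the factors has a
frequency which is not an integer because the matrix is invertible modulo every integer.
-/

set_option autoImplicit false

namespace Pool.Agent.Results.MP_69be96_nt.DiophantineApproximation

/-- the record scale `log x (log₂ x)² log₄ x / (log₃ x)²` -/
noncomputable def scale (x : ℝ) : ℝ :=
  Real.log x * (Real.log (Real.log x)) ^ 2 * Real.log (Real.log (Real.log (Real.log x))) /
    (Real.log (Real.log (Real.log x))) ^ 2

/-- no prime at distance at most `K` of the integer `n` -/
def Isolated (K : ℝ) (n : ℤ) : Prop := ∀ q : ℕ, q.Prime → K < |(q : ℝ) - n|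

/-- **Numerators and denominators of the homogeneous and inhomogeneous approximations of every
irrational number inside record prime gaps.** -/
theorem result : ∀ ε : ℝ, 0 < ε → ε ≤ 1 → ∃ κ : ℝ, 0 < κ ∧
    ∀ α : ℝ, Irrational α → 0 < α → ∀ β T : ℝ,
      ∃ p q : ℕ, T ≤ q ∧ |q * α - p - β| < (q : ℝ) ^ (-1 + ε) ∧
        Isolated (κ * scale q) p ∧ Isolated (κ * scale q) q := by
  intro ε h0 h1
  obtain ⟨κ, hκ, h⟩ := Pool.Agent.Q318.RG.approx ε h0 h1
  refine ⟨κ, hκ, fun α hα hα0 β T => ?_⟩
  obtain ⟨p, q, h2, h3, h4⟩ := h α hα hα0 β T
  exact ⟨p, q, h2, h3, h4 1, h4 0⟩

end Pool.Agent.Results.MP_69be96_nt.DiophantineApproximation
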